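import Pool.Agent.FTP.NoFFTP
import Pool.Agent.FTP.AutoMain

/-!
# An automatic group with the falsification by fellow traveller property for no finite
generating set

The group consists of the pairs `(x, y)` of elements of the free group `F` of rank three whose
exponent sums agree modulo two in each of the three generators (index eight in `F x F`).

Definitions of this file: words over a set `A` of group elements, word length, geodesic words,
synchronous fellow travelling, FFTP with respect to a finite set `X` (letters `X ∪ X⁻¹`), and
automatic groups (regular language over the letters of a finite generating set).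
-/

set_option autoImplicit false

namespace Pool.Agent.Results.MP_a651d8_al.NoFalsification

/-- The letters: elements of `X` and inverses of elements of `X`. -/
def Letters {G : Type} [Group G] (X : Finset G) : Set G := {a | a ∈ X ∨ a⁻¹ ∈ X}

/-- All letters of the word `w` belong to `X ∪ X⁻¹`. -/
def IsWord {G : Type} [Group G] (X : Finset G) (w : List G) : Prop := ∀ a ∈ w, a ∈ Letters X

/-- The word length of `g` with respect to `X`: the least length of a word with product `g`. -/
noncomputable def wordLength {G : Type} [Group G] (X : Finset G) (g : G) : ℕ :=
  sInf {n : ℕ | ∃ w : List G, IsWord X w ∧ w.prod = g ∧ w.length = n}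

/-- A word is geodesic if its length is the word length of the element it represents. -/
def Geodesic {G : Type} [Group G] (X : Finset G) (w : List G) : Prop :=
  w.length = wordLength X w.prod

/-- The words `v` and `w` synchronously `K`-fellow travel: for all `t`, the elements represented by
the prefixes of length `t` are at distance at most `K`. -/
def FellowTravel {G : Type} [Group G] (X : Finset G) (K : ℕ) (v w : List G) : Prop :=
  ∀ t : ℕ, wordLength X ((v.take t).prod⁻¹ * (w.take t).prod) ≤ K

/-- The falsification by fellow traveller property with respect to the finite set `X`. -/
def FFTP {G : Type} [Group G] (X : Finset G) : Prop :=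
  ∃ K : ℕ, ∀ v : List G, IsWord X v → ¬ Geodesic X v →
    ∃ w : List G, IsWord X w ∧ w.prod = v.prod ∧ w.length < v.length ∧ FellowTravel X K v w

/-- Automatic groups: there are a finite generating set `X` and a regular language over the letters
`X ∪ X⁻¹` which maps onto the group such that any two words of the language representing elements
at distance at most one `K`-fellow travel, for a constant `K`. -/
def IsAutomatic (G : Type) [Group G] : Prop :=
  ∃ X : Finset G, Subgroup.closure (X : Set G) = ⊤ ∧
    ∃ L : Language (Letters X), L.IsRegular ∧
      (∀ g : G, ∃ w ∈ L, (w.map Subtype.val).prod = g) ∧
      ∃ K : ℕ, ∀ u ∈ L, ∀ v ∈ L,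
        wordLength X ((u.map Subtype.val).prod⁻¹ * (v.map Subtype.val).prod) ≤ 1 →
          FellowTravel X K (u.map Subtype.val) (v.map Subtype.val)

/-- There is an automatic group that fails the falsification by fellow traveller property with
respect to every finite generating set. -/
theorem result : ∃ (G : Type) (_ : Group G), IsAutomatic G ∧
    ∀ X : Finset G, Subgroup.closure (X : Set G) = ⊤ → ¬ FFTP X :=
  ⟨Pool.Agent.FTP.GG, inferInstance, Pool.Agent.FTP.gg_automatic,
    fun X hX => Pool.Agent.FTP.not_fftp X hX⟩

end Pool.Agent.Results.MP_a651d8_al.NoFalsification
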